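import Pool.Agent.W2helper5.KA.Stm

/-!
# Piece ORB (helper5, project KA): orders of elements in an exact factorization
-/

set_option autoImplicit false

namespace Pool.Agent.W2helper15.KA

open Pool.Agent.W2helper5.KA

/-- if the element of order `p` in `⟨h⟩` acts without fixed point on `G / A`, the order of `h`
divides the index -/
theorem dvd_index {G : Type} [Group G] [Finite G] (A : Subgroup G) (h : G) (p a : ℕ)
    (hp : p.Prime) (ho : orderOf h = p ^ (a + 1)) (hz : ∀ x : G ⧸ A, h ^ (p ^ a) • x ≠ x) :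
    p ^ (a + 1) ∣ A.index := by
  classical
  have hper : ∀ x : G ⧸ A, Function.minimalPeriod (h • ·) x = p ^ (a + 1) := by
    intro x
    have h1 : Function.minimalPeriod (h • ·) x ∣ p ^ (a + 1) := by
      apply Function.IsPeriodicPt.minimalPeriod_dvd
      show (h • ·)^[p ^ (a + 1)] x = x
      rw [smul_iterate, ← ho, pow_orderOf_eq_one]
      exact one_smul G x
    obtain ⟨b, hb, hb2⟩ := (Nat.dvd_prime_pow hp).1 h1
    rcases Nat.lt_or_ge b (a + 1) with hlt | hge
    · exfalso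
      apply hz x
      have h2 : Function.minimalPeriod (h • ·) x ∣ p ^ a := by
        rw [hb2]
        exact pow_dvd_pow p (by omega)
      have h3 : (h • ·)^[p ^ a] x = x := Function.isPeriodicPt_iff_minimalPeriod_dvd.2 h2
      rwa [smul_iterate] at h3
    · rw [hb2, le_antisymm hb hge]
  have : Fintype (Quotient (MulAction.orbitRel (Subgroup.zpowers h) (G ⧸ A))) :=
    Fintype.ofFinite _
  rw [Subgroup.index_eq_sum_minimalPeriod A h]
  refine Finset.dvd_sum fun q _ => ?_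
  rw [hper]

/-- **ORB** -/
theorem ORB : P_ORB := by
  intro G _ _ A B hAB hdis g p a hp hdvd
  rcases Nat.eq_zero_or_pos a with ha | ha
  · left
    rw [ha, pow_zero]
    exact one_dvd _
  obtain ⟨a, rfl⟩ : ∃ b, a = b + 1 := ⟨a - 1, by omega⟩
  have hcomp : Subgroup.IsComplement' A B := by
    apply Subgroup.isComplement'_of_disjoint_and_mul_eq_univ
    · exact disjoint_iff.2 hdis
    · rw [Set.eq_univ_iff_forall]
      intro g
      obtain ⟨a, ha, b, hb, rfl⟩ := hAB g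
      exact Set.mul_mem_mul ha hb
  have hiA : A.index = Nat.card B := hcomp.symm.index_eq_card
  have hiB : B.index = Nat.card A := hcomp.index_eq_card
  obtain ⟨m, hm⟩ := hdvd
  have hgpos : 0 < orderOf g := orderOf_pos g
  have hmpos : 0 < m := by
    rcases Nat.eq_zero_or_pos m with h | h
    · rw [h, mul_zero] at hm
      omega
    · exact h
  have ho : orderOf (g ^ m) = p ^ (a + 1) := by
    rw [orderOf_pow_of_dvd hmpos.ne' ⟨p ^ (a + 1), by rw [hm, mul_comm]⟩, hm,
      Nat.mul_div_cancel _ hmpos]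
  obtain ⟨h, hh⟩ : ∃ h, h = g ^ m := ⟨_, rfl⟩
  rw [← hh] at ho
  have hz1 : h ^ (p ^ a) ≠ 1 := by
    intro h1
    have h2 := orderOf_dvd_of_pow_eq_one h1
    rw [ho] at h2
    have h3 := Nat.le_of_dvd (pow_pos hp.pos a) h2
    rw [pow_succ] at h3
    have h4 : 0 < p ^ a := pow_pos hp.pos a
    have h5 := hp.two_le
    nlinarith
  by_cases hA : ∀ x : G ⧸ A, h ^ (p ^ a) • x ≠ x
  · right
    rw [← hiA]
    exact dvd_index A h p a hp ho hA
  by_cases hB : ∀ x : G ⧸ B, h ^ (p ^ a) • x ≠ x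
  · left
    rw [← hiB]
    exact dvd_index B h p a hp ho hB
  exfalso
  push Not at hA hB
  obtain ⟨x, hx⟩ := hA
  obtain ⟨y, hy⟩ := hB
  induction x using QuotientGroup.induction_on with
  | H x => ?_
  induction y using QuotientGroup.induction_on with
  | H y => ?_
  obtain ⟨z, hzz⟩ : ∃ z, z = h ^ (p ^ a) := ⟨_, rfl⟩
  rw [← hzz] at hx hy hz1
  have hx' : x⁻¹ * z⁻¹ * x ∈ A := by
    have h1 : ((z * x : G) : G ⧸ A) = (x : G ⧸ A) := hx
    rw [QuotientGroup.eq] at h1
    simpa [mul_assoc] using h1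
  have hy' : y⁻¹ * z⁻¹ * y ∈ B := by
    have h1 : ((z * y : G) : G ⧸ B) = (y : G ⧸ B) := hy
    rw [QuotientGroup.eq] at h1
    simpa [mul_assoc] using h1
  obtain ⟨c, hc, d, hd, hcd⟩ := hAB (x⁻¹ * y)
  have h1 : c⁻¹ * (x⁻¹ * z⁻¹ * x) * c = d * (y⁻¹ * z⁻¹ * y) * d⁻¹ := by
    have h2 : c = x⁻¹ * y * d⁻¹ := by rw [hcd]; group
    rw [h2]
    group
  have h2 : c⁻¹ * (x⁻¹ * z⁻¹ * x) * c ∈ A ⊓ B := by
    refine ⟨A.mul_mem (A.mul_mem (A.inv_mem hc) hx') hc, ?_⟩
    rw [h1]
    exact B.mul_mem (B.mul_mem hd hy') (B.inv_mem hd)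
  rw [hdis, Subgroup.mem_bot] at h2
  apply hz1
  have h3 : z = (x * c) * (c⁻¹ * (x⁻¹ * z⁻¹ * x) * c)⁻¹ * (x * c)⁻¹ := by group
  rw [h3, h2]
  group

end Pool.Agent.W2helper15.KA
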